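import Pool.Agent.R557.CSCode

set_option autoImplicit false

/-! Isomorphism of c.e. presented finitely generated commutative semigroups is computably reducible
to `E_min(ω ^ ω)`. -/

namespace Pool.Agent.Results.MP_00bf54_lc.IsoEmin

open Pool.Agent.R557.CS

/-- Codings of the Cantor normal forms below `ω ^ ω` by natural numbers exist. For each of them the
ordering of the codes is computable and of type `ω ^ ω`, and there is a computable reduction of
isomorphism of c.e. presentations of finitely generated commutative semigroups (the index `⟨k, e⟩`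
stands for `k` generators and the equations listed in the `e`-th c.e. set) to `E_min` of this
ordering; in particular, for every `n`, isomorphism of c.e. presentations on `n` generators is
computably reducible to `E_min` of this ordering. -/
theorem result :
    (∃ c : ℕ → List ℕ, IsCNF c) ∧
    ∀ c : ℕ → List ℕ, IsCNF c →
      (Function.Injective (fun n => ordv (c n)) ∧
        Set.range (fun n => ordv (c n)) = Set.Iio (Ordinal.omega0 ^ Ordinal.omega0) ∧
        ComputablePred fun p : ℕ × ℕ => ordv (c p.1) < ordv (c p.2)) ∧
      (∀ n : ℕ, ∃ f : ℕ → ℕ, Computable f ∧ ∀ e i, Iso n e n i ↔ Emin c (f e) (f i)) ∧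
      ∃ f : ℕ → ℕ, Computable f ∧ ∀ k e k' e',
        Iso k e k' e' ↔ Emin c (f (Nat.pair k e)) (f (Nat.pair k' e')) := by
  refine ⟨⟨cod, isCNF_cod⟩, fun c hc => ⟨⟨(order_type hc).1, (order_type hc).2,
    order_computable hc⟩, fun n => ?_, main hc⟩⟩
  obtain ⟨f, hf, h⟩ := main hc
  exact ⟨fun e => f (Nat.pair n e), hf.comp (Primrec₂.natPair.comp (Primrec.const n)
    Primrec.id).to_comp, fun e i => h n e n i⟩

end Pool.Agent.Results.MP_00bf54_lc.IsoEmin
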